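import Mathlib
import Pool.Agent.U462.Sh.ZTwo

set_option autoImplicit false

/-!
# Prime pairs with difference `d` in residue classes: every set of empty classes is possible
-/

namespace Pool.Agent.Results.MP_92ef0c_nt.AnySetOfClasses

open Finset Filter
open scoped Topology
open Pool.Agent.U462.Sh.Law

/-- **Every set of empty classes is possible, at every scale.** Let `d ≥ 1`, and for every `j` let `q j` be
a modulus and `A j` a set of residue classes modulo `q j`. There is a set `S` of rough numbers `≥ 2` which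
contains for no `p` with `2 ^ j ≤ p < 2 ^ (j + 1)`, `p` modulo `q j` in `A j`, both `p` and `p + d`, with the
uniform Hardy–Littlewood law for all systems of linear forms and all intervals, except for those systems with
two forms `l, l + d` for which `l` has in the interval such a value `p`. -/
theorem result : ∀ d : ℕ, 1 ≤ d → ∀ (q : ℕ → ℕ) (A : ℕ → Set ℕ), ∃ S : Set ℕ, (∀ m ∈ S, 2 ≤ m ∧ Rough m) ∧
    (∀ p : ℕ, p % q (Nat.log 2 p) ∈ A (Nat.log 2 p) → ¬ (p ∈ S ∧ p + d ∈ S)) ∧
    LawOn S (fun L u v => ∀ a b : ℤ, (a, b) ∈ L → (a, b + d) ∈ L → ∀ m : ℕ, u ≤ m → m < v →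
      value (a, b) m % q (Nat.log 2 (value (a, b) m)) ∉ A (Nat.log 2 (value (a, b) m))) := by
  classical
  intro d _ q A
  obtain ⟨S, h1, h2, h3⟩ := Pool.Agent.U462.Sh.shiftOn {0, d} (by simp)
    {p | p % q (Nat.log 2 p) ∈ A (Nat.log 2 p)}
  refine ⟨S, h1, ?_, Pool.Agent.U462.Sh.on_mono ?_ h3⟩
  · rintro p hp ⟨h5, h6⟩
    apply h2 p hp
    intro e he
    simp only [mem_insert, mem_singleton] at he
    rcases he with rfl | rfl
    · exact h5
    · exact h6
  · rintro L u v hL a b hab m hm1 hm2 h5
    exact hL a b (by simpa using hab 0 (by simp)) (by simpa using hab d (by simp)) m hm1 hm2 h5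

end Pool.Agent.Results.MP_92ef0c_nt.AnySetOfClasses
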