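import Pool.Agent.U828.KD.One
import Pool.Agent.TH935.DF5

/-!
# Prime pairs in progressions, uniformly in the modulus, for ALL the differences near almost all values of an arbitrary
function of higher convexity

Fix `r ≥ 2`. Let `f` be ANY function on `{1, ..., x}`, `x ≥ N ^ (1 / r + η)`, with values in `[-B₀ N, B₀ N]`, whose differences
of order `r` are all at least `N / (x ^ r log ^ W N)`, or all at most the negative of this number. Then for all but
`x / log ^ U N` of the `m ≤ x` the estimate of the problem, with the error term `X / log ^ C X`, holds for ALL the positive even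
`d` with `|d - f m| ≤ log ^ W N`, uniformly for all `q ≤ log ^ B X`, all admissible classes and all `x' ≤ X`, where
`N log ^ (C + 6) X ≤ X ≤ N log ^ T X`.

For `r = 2` these are the strictly convex (or concave) functions; for larger `r` there are only `N ^ (1 / r + η)` points, so
the differences `d` run through neighbourhoods of arbitrarily sparse sets (any power `N ^ θ`, `θ > 0`), and no regularity is
assumed besides the sign and the size of the `r`-th differences. The earlier results of this
problem on individual differences treat palindromes, smooth numbers, digit permutations, residues, quadratic values, real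
polynomials and families of nearly minimal additive energy.

Proof: the energy theorem `Pool.Agent.U828.KD.energy_r` (helper828: an `r`-th derivative test for arbitrary sequences, and
Fejér kernels), the passage to all the integers near the values (`Pool.Agent.U828.KD.nearOne`, helper828), and the theorem
`Pool.Agent.TH935.DF.gd_fam` of the starting files.

Definition used: `Pool.Agent.H560R3.GB.C₂`, the twin prime constant `∏_{p > 2} (1 - 1 / (p - 1) ^ 2)`
(the infimum of the partial products).
-/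

set_option autoImplicit false

namespace Pool.Agent.Results.MP_92ef0c_nt.HigherConvexDifferences

open Finset Pool.Agent.H560R3.GB

open Classical in
/-- `π_d(x; a, q)`: the number of primes `p ≤ x` with `p + d ≤ x` prime and `p ≡ a (mod q)`. (For even
`d > 0` such a prime `p` is automatically odd.) -/
noncomputable def pairs (d : ℕ) (x : ℝ) (a q : ℕ) : ℕ :=
  ((range (⌊x⌋₊ + 1)).filter (fun p => p.Prime ∧ (p + d).Prime ∧ (p : ℝ) + d ≤ x ∧ p ≡ a [MOD q])).card

/-- The main term `M_d(x; q)` of the problem. -/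
noncomputable def main (d : ℕ) (x : ℝ) (q : ℕ) : ℝ :=
  2 / (((range q).filter (fun α => Nat.Coprime α q ∧ Nat.Coprime (α + d) q)).card : ℝ) *
    (∏ p ∈ d.primeFactors.filter (fun p => 2 < p), ((p : ℝ) - 1) / ((p : ℝ) - 2)) * C₂ *
    ∫ t in (2 : ℝ)..x, 1 / Real.log t ^ 2

/-- The estimate of the problem for the difference `d`, with the bound `X / (log X) ^ C`, for all `x ≤ X`, all moduli
`q ≤ (log X) ^ B` and all admissible classes `a`. -/
def Holds (B C X d : ℕ) : Prop :=
  ∀ q a : ℕ, 1 ≤ q → (q : ℝ) ≤ Real.log X ^ B → Nat.Coprime a q → Nat.Coprime (a + d) q → ∀ x : ℝ, 2 ≤ x → x ≤ X →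
    |(pairs d x a q : ℝ) - main d x q| ≤ X / Real.log X ^ C

/-- The differences of order `r` of `f` on `{1, ..., x}` are all at least `κ`, or all at most `-κ`. Here `fwdDiff 1 f m`
is the difference `f (m + 1) - f m`. -/
def Bent (r x : ℕ) (f : ℕ → ℝ) (κ : ℝ) : Prop :=
  (∀ m, 1 ≤ m → m + r ≤ x → κ ≤ (fwdDiff 1)^[r] f m) ∨ (∀ m, 1 ≤ m → m + r ≤ x → (fwdDiff 1)^[r] f m ≤ -κ)

lemma holds_of (B C X d : ℕ) (hd0 : 0 < d) (hdev : Even d) (hgood : Pool.Agent.W93.PP.GoodD 0 B C X d) :
    Holds B C X d := by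
  intro q a hq1 hq2 ha had x hx2 hxX
  have h2 := hgood 0 q a (by simp) hq1 hq2 ha (by simpa using had) (by simpa using hdev.two_dvd)
    (by simpa using hd0.ne') x hx2 hxX
  rw [add_zero] at h2
  have e1 : main d x q = sing d / Pool.Agent.W93.PP.Cnt q d * Pool.Agent.W93.PP.Li2 x := by
    unfold main sing Pool.Agent.W93.PP.Cnt Pool.Agent.W93.PP.Li2
    ring
  rw [e1]
  exact h2

open Classical in
/-- Let `r ≥ 2`, `B`, `C`, `B₀`, `T`, `U`, `W` and `η > 0` be fixed. For all large `N`, all `X ≥ N` with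
`N (log X) ^ (C + 6) ≤ X ≤ N (log X) ^ T`, all `x ≥ N ^ (1 / r + η)` and ALL functions `f` with values in `[-B₀ N, B₀ N]` on
`{1, ..., x}` whose differences of order `r` are all at least `N / (x ^ r log ^ W N)`, or all at most the negative of this
number: for all but at most `x / log ^ U N` of the `m ≤ x`, ALL the even `d > 0` with `|d - f m| ≤ log ^ W N` satisfy
`|π_d(x'; a, q) - M_d(x'; q)| ≤ X / (log X) ^ C` for all `2 ≤ x' ≤ X`, all `1 ≤ q ≤ (log X) ^ B` and all `a` with
`(a, q) = (a + d, q) = 1` (`Holds B C X d`). -/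
theorem result (r : ℕ) (hr : 2 ≤ r) (B C B₀ T U W : ℕ) (η : ℝ) (hη : 0 < η) :
    ∃ N₀ : ℕ, ∀ N : ℕ, N₀ ≤ N → ∀ X : ℕ, N ≤ X → (N : ℝ) * Real.log X ^ (C + 6) ≤ X → (X : ℝ) ≤ N * Real.log X ^ T →
    ∀ x : ℕ, (N : ℝ) ^ (1 / (r : ℝ) + η) ≤ x →
    ∀ f : ℕ → ℝ, (∀ m ∈ Icc 1 x, |f m| ≤ B₀ * N) → Bent r x f (N / ((x : ℝ) ^ r * Real.log N ^ W)) →
    (((Icc 1 x).filter (fun m => ¬ ∀ d : ℕ, 0 < d → Even d → |(d : ℝ) - f m| ≤ Real.log N ^ W →
      Holds B C X d)).card : ℝ) ≤ x / Real.log N ^ U := by
  obtain ⟨p, D, V, n1, hp, h1⟩ := Pool.Agent.U828.KD.nearOne r hr (B₀ + 1) W U η hη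
  obtain ⟨n2, h2⟩ := Pool.Agent.TH935.DF.gd_fam p 0 B C V D (B₀ + 1) T
  obtain ⟨n3, h3⟩ := Pool.Agent.H373R2.T7.ev_log' W 1
  refine ⟨n1 + n2 + n3 + 1, fun N hN X hX0 hX1 hX2 x hx f hf hb => ?_⟩
  have h4 := h3 N (by omega)
  rw [one_mul] at h4
  have hN1 : (1 : ℝ) ≤ N := by exact_mod_cast (by omega : 1 ≤ N)
  have h5 : Real.log N ^ W ≤ N := by
    refine h4.trans ?_
    rw [Real.sqrt_le_left (by positivity)]
    nlinarith
  apply h1 N (by omega) (fun b => 0 < b → Even b → Holds B C X b.toNat) _ x hx f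
    (fun m hm => (hf m hm).trans (by push_cast; nlinarith)) hb _ (filter_subset _ _)
  · intro m hm
    obtain ⟨hm1, hm2⟩ := mem_filter.1 hm
    push Not at hm2
    obtain ⟨d, hd0, hd1, hd2, hd3⟩ := hm2
    refine ⟨(d : ℤ), ?_, by simpa using hd2, ?_⟩
    · have h6 := abs_le.1 (hf m hm1)
      have h7 := abs_le.1 hd2
      rw [Int.cast_natCast, abs_of_nonneg (Nat.cast_nonneg d)]
      push_cast
      nlinarith [h6.2, h7.2]
    · intro hcon
      have h8 := hcon (by exact_mod_cast hd0) (by exact_mod_cast hd1)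
      rw [Int.toNat_natCast] at h8
      exact hd3 h8
  · intro x' s hs hE S hS hSb
    apply h2 N (by omega) x' s hs hE X hX0 hX1 hX2 S hS
    intro m hm
    have h6 := hSb m hm
    push Not at h6
    obtain ⟨h7, h8, h9⟩ := h6
    refine ⟨h7.le, fun hG => h9 (holds_of B C X _ (by omega) ?_ hG)⟩
    have h10 : (((s m).toNat : ℕ) : ℤ) = s m := Int.toNat_of_nonneg h7.le
    rw [← Int.even_coe_nat, h10]
    exact h8

end Pool.Agent.Results.MP_92ef0c_nt.HigherConvexDifferences
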