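import Pool.Agent.TH935.DF5
import Pool.Agent.U471.RP.LogNear

/-!
# Prime pairs in progressions, uniformly in the modulus, for all the differences near the values of real polynomials

Let `f` be a real polynomial of degree at most `k` whose coefficient of `t ^ k` lies between `(log N) ^ (-C₀)` and
`(log N) ^ C₀`, with `|f(m)| ≤ B₀ N` for `m = 1, …, x`, where `(log N) ^ C₀ x ^ k ≥ N`; the other coefficients are arbitrary.
For all but a proportion `(log N) ^ (-U)` of the `m ≤ x` ALL the even differences `d > 0` with `|d - f(m)| ≤ (log N) ^ W` are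
such that the estimate of the problem holds for `d` at the scale `X` (where `X / N` is a power of `log X`), uniformly for
all the moduli `q ≤ (log X) ^ B` and all the classes, with the error `X / (log X) ^ C`. The theorem is uniform in `f`.

Proof: an inverse theorem for Weyl sums (`Pool.Agent.H373R2.NB.IW_all`) shows that the integers near the values have, up to
powers of `log N`, the least possible additive energy of some order (`Pool.Agent.U471.RP.energy_real`); then the theorem of
the starting files on families of small energy (`Pool.Agent.TH935.DF.gd_fam`) is applied for every distance of `d` from the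
integer part of `f(m)` (`Pool.Agent.U471.RP.log_near`).

Definition used: `Pool.Agent.H560R3.GB.C₂`, the twin prime constant `∏_{p > 2} (1 - 1 / (p - 1) ^ 2)`
(the infimum of the partial products).
-/

set_option autoImplicit false

namespace Pool.Agent.Results.MP_92ef0c_nt.RealPolynomialDifferences

open Finset Polynomial Pool.Agent.H560R3.GB

open Classical in
/-- `π_d(x; a, q)`: the number of primes `p ≤ x` with `p + d ≤ x` prime and `p ≡ a (mod q)`. (For even
`d > 0` such a prime `p` is automatically odd.) -/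
noncomputable def pairs (d : ℕ) (x : ℝ) (a q : ℕ) : ℕ :=
  ((range (⌊x⌋₊ + 1)).filter (fun p => p.Prime ∧ (p + d).Prime ∧ (p : ℝ) + d ≤ x ∧ p ≡ a [MOD q])).card

/-- The main term `M_d(x; q)` of the problem. -/
noncomputable def main (d : ℕ) (x : ℝ) (q : ℕ) : ℝ :=
  2 / (((range q).filter (fun α => Nat.Coprime α q ∧ Nat.Coprime (α + d) q)).card : ℝ) *
    (∏ p ∈ d.primeFactors.filter (fun p => 2 < p), ((p : ℝ) - 1) / ((p : ℝ) - 2)) * C₂ *
    ∫ t in (2 : ℝ)..x, 1 / Real.log t ^ 2

/-- The estimate of the problem for the difference `d` with the bound `X / (log X) ^ C`, for all `x ≤ X`, all moduli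
`q ≤ (log X) ^ B` and all admissible classes `a`. -/
def Holds (B C X d : ℕ) : Prop :=
  ∀ q a : ℕ, 1 ≤ q → (q : ℝ) ≤ Real.log X ^ B → Nat.Coprime a q → Nat.Coprime (a + d) q → ∀ x : ℝ, 2 ≤ x → x ≤ X →
    |(pairs d x a q : ℝ) - main d x q| ≤ X / Real.log X ^ C

/-- The real polynomials `f` of degree at most `k`, with `(log N) ^ (-C₀) ≤ f_k ≤ (log N) ^ C₀` for the coefficient `f_k`
of `t ^ k`, and with `|f(m)| ≤ B₀ N` for `m = 1, …, x`, where `(log N) ^ C₀ x ^ k ≥ N`. -/
structure Normal (k B₀ C₀ N x : ℕ) (f : ℝ[X]) : Prop where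
  degree : f.natDegree ≤ k
  lower : 1 / Real.log N ^ C₀ ≤ f.coeff k
  upper : f.coeff k ≤ Real.log N ^ C₀
  length : (N : ℝ) ≤ Real.log N ^ C₀ * (x : ℝ) ^ k
  values : ∀ m ∈ Icc 1 x, |f.eval (m : ℝ)| ≤ B₀ * N

open Classical in
/-- The number of the `m ≤ x` such that `Holds` fails for some even `d > 0` with `|d - f(m)| ≤ (log N) ^ W`. -/
noncomputable def exceptions (B C X W N x : ℕ) (f : ℝ[X]) : ℕ :=
  ((Icc 1 x).filter (fun m : ℕ => ∃ d : ℕ, 0 < d ∧ Even d ∧ |(d : ℝ) - f.eval (m : ℝ)| ≤ Real.log N ^ W ∧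
    ¬ Holds B C X d)).card

/-- **Prime pairs in progressions for all the differences near the values of real polynomials.** Let `k ≥ 1`, `B`, `C`,
`B₀`, `C₀`, `U`, `W` and `T` be fixed, let `N` be large, and let `X ≥ N` be such that
`N (log X) ^ (C + 6) ≤ X ≤ N (log X) ^ T`. For all `x` and ALL real polynomials `f` with `Normal k B₀ C₀ N x f`, for all but
at most `x / log ^ U N` of the `m ≤ x`, ALL the even `d > 0` with `|d - f(m)| ≤ log ^ W N` satisfy: for all `x' ≤ X`, all
`q ≤ (log X) ^ B` and all `a` with `(a, q) = (a + d, q) = 1`, `|π_d(x'; a, q) - M_d(x'; q)| ≤ X / (log X) ^ C`. -/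
theorem result (k : ℕ) (hk : 1 ≤ k) (B C B₀ C₀ U W T : ℕ) :
    ∃ N₀ : ℕ, ∀ N : ℕ, N₀ ≤ N →
      ∀ X : ℕ, N ≤ X → (N : ℝ) * Real.log X ^ (C + 6) ≤ X → (X : ℝ) ≤ N * Real.log X ^ T →
      ∀ (x : ℕ) (f : ℝ[X]), Normal k B₀ C₀ N x f →
        (exceptions B C X W N x f : ℝ) ≤ x / Real.log N ^ U := by
  classical
  obtain ⟨p, hp, hnear⟩ := Pool.Agent.U471.RP.log_near k hk
  obtain ⟨N₁, h1⟩ := Pool.Agent.TH935.DF.gd_fam p 0 B C (U + W + 1) (6 * C₀ + 2 * W + 1) (B₀ + 1) T
  obtain ⟨N₀, h0⟩ := hnear B₀ C₀ W U (Θ := ℕ)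
    (fun N X => N ≤ X ∧ (N : ℝ) * Real.log X ^ (C + 6) ≤ X ∧ (X : ℝ) ≤ N * Real.log X ^ T)
    (fun _ X b => 0 < b ∧ Even b ∧ ¬ Holds B C X b.toNat) N₁
    (fun N hN X hX x s hs hE S hSx hS => h1 N hN x s (fun m hm => by have := hs m hm; push_cast at this ⊢; exact this)
      hE X hX.1 hX.2.1 hX.2.2 S hSx fun m hm => by
        obtain ⟨h2, h3, h4⟩ := hS m hm
        refine ⟨h2.le, fun hG => h4 ?_⟩
        intro q a hq1 hq2 ha had x' hx2 hxX
        have h5 := hG 0 q a (by simp) hq1 hq2 ha had (by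
          rw [add_zero]
          have : (2 : ℤ) ∣ s m := h3.two_dvd
          omega) (by omega) x' hx2 hxX
        have e1 : main (s m).toNat x' q = Pool.Agent.H560R3.GB.sing (s m).toNat /
            Pool.Agent.W93.PP.Cnt q (s m).toNat * Pool.Agent.W93.PP.Li2 x' := by
          unfold main sing Pool.Agent.W93.PP.Cnt Pool.Agent.W93.PP.Li2
          ring
        rw [e1]
        exact h5)
  refine ⟨N₀, fun N hN X hX0 hX1 hX2 x f hf => ?_⟩
  unfold exceptions
  refine h0 N hN X ⟨hX0, hX1, hX2⟩ x f ⟨hf.degree, hf.lower, hf.upper, hf.length, hf.values⟩ _ (filter_subset _ _) ?_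
  intro m hm
  rw [mem_filter] at hm
  obtain ⟨_, d, hd0, hd1, hd2, hd3⟩ := hm
  refine ⟨(d : ℤ), by exact_mod_cast hd2, by exact_mod_cast hd0, by exact_mod_cast hd1, ?_⟩
  rw [Int.toNat_natCast]
  exact hd3

end Pool.Agent.Results.MP_92ef0c_nt.RealPolynomialDifferences
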