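import Pool.Agent.U847.WT
import Pool.Agent.U847.GD

/-!
# Prime pairs in progressions, uniformly in the modulus, for differences near all the multiples of integers given by walks

Definition used (in `Pool.Agent.H560R3.GB`): `C₂`: the twin prime constant `∏_{p > 2} (1 - 1 / (p - 1) ^ 2)` (the infimum
of the partial products).

The differences are near the multiples `h q`, `h ≤ k ^ J`, of the integers `q` near `c + κ v`, for almost all the integers
`v` whose `k` digits are the labels of the walks between two vertices of a graph, for example of the Cayley graph of a group: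
then these are the integers whose digits spell a given element of the group. Such a set can contain as few as `N ^ ε`
integers below `N`, and in general it is not automatic.

Method: the exponential sum over the walks is dominated by the iterates of the adjacency operator of the graph, which
loses a constant factor at every digit where the frequency is not extremal (starting files, `Pool.Agent.N625.GW`). New
here: a frequency `θ` at which the exponential sum over the multiples `h v` is large differs little from a fraction with a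
small denominator except at `O(log k)` of the digits, for all `h ≤ k ^ J` (`Pool.Agent.U847.TG`, `Pool.Agent.U847.TI`), and
the application to prime pairs (`Pool.Agent.U847.GD`). The circle method for the pairs is from the starting files
(`Pool.Agent.Y885.tl_goodD`, `Pool.Agent.W93.PP`).
-/

set_option autoImplicit false

namespace Pool.Agent.Results.MP_92ef0c_nt.WalkDifferences

open Finset Pool.Agent.H560R3.GB

/-- `π_d(x; a, q)`: the number of primes `p ≤ x` with `p + d ≤ x` prime and `p ≡ a (mod q)`. (For even
`d > 0` such a prime `p` is automatically odd.) -/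
noncomputable def pairs (d : ℕ) (x : ℝ) (a q : ℕ) : ℕ :=
  ((range (⌊x⌋₊ + 1)).filter (fun p => p.Prime ∧ (p + d).Prime ∧ (p : ℝ) + d ≤ x ∧ p ≡ a [MOD q])).card

/-- The main term `M_d(x; q)` of the problem. -/
noncomputable def main (d : ℕ) (x : ℝ) (q : ℕ) : ℝ :=
  2 / (((range q).filter (fun α => Nat.Coprime α q ∧ Nat.Coprime (α + d) q)).card : ℝ) *
    (∏ p ∈ d.primeFactors.filter (fun p => 2 < p), ((p : ℝ) - 1) / ((p : ℝ) - 2)) * C₂ *
    ∫ t in (2 : ℝ)..x, 1 / Real.log t ^ 2

/-- The estimate of the problem with the bound `X / (log X) ^ C`, for all `x ≤ X`, all moduli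
`q ≤ (log X) ^ A₂`, all admissible classes `a`, and all even `d` with `D ≤ d ≤ D + (log X) ^ A₁`. -/
def Holds (A₁ A₂ C X D : ℕ) : Prop :=
  ∀ d q a : ℕ, D ≤ d → (d : ℝ) ≤ D + Real.log X ^ A₁ → 0 < d → Even d → 1 ≤ q → (q : ℝ) ≤ Real.log X ^ A₂ →
    Nat.Coprime a q → Nat.Coprime (a + d) q → ∀ x : ℝ, 2 ≤ x → x ≤ X →
    |(pairs d x a q : ℝ) - main d x q| ≤ X / Real.log X ^ C

/-- The digits `a < b` act on the set `X` of the vertices: an edge with the label `a` leads from `x` to `y` if
`δ x a = some y` (at most one edge with the label `a` starts at `x`). The number of the edges from `x` to `y` equals the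
number of the edges from `y` to `x`, and at least two edges start at every vertex. The graph may be infinite. -/
structure Graph {X : Type} (b : ℕ) (δ : X → ℕ → Option X) : Prop where
  symm : ∀ x y : X, {a : ℕ | a < b ∧ δ x a = some y}.ncard = {a : ℕ | a < b ∧ δ y a = some x}.ncard
  two : ∀ x : X, ∃ a a' : ℕ, a < a' ∧ a' < b ∧ (δ x a).isSome ∧ (δ x a').isSome

open Classical in
/-- The integers `v < b ^ k` whose `k` digits in base `b`, from the most significant to the least significant one (the
digit number `i`, `0 ≤ i < k`, from the left is `v / b ^ (k - 1 - i) % b`), are the labels of a walk from `x` to `y`. -/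
noncomputable def walks {X : Type} (b : ℕ) (δ : X → ℕ → Option X) (k : ℕ) (x y : X) : Finset ℕ :=
  (range (b ^ k)).filter fun v =>
    ((List.range k).map fun i => v / b ^ (k - 1 - i) % b).foldl (fun s a => s.bind fun z => δ z a) (some x) = some y

lemma holds_of (A B C X D : ℕ) (hgood : Pool.Agent.W93.PP.GoodD A B C X D) : Holds A B C X D := by
  intro d q a hd1 hd2 hd0 hdev hq1 hq2 ha had x hx2 hxX
  obtain ⟨δ, hδ⟩ := Nat.exists_eq_add_of_le hd1
  subst hδ
  have hδL : (δ : ℝ) ≤ Real.log X ^ A := by
    push_cast at hd2 ⊢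
    linarith
  have h2 := hgood δ q a hδL hq1 hq2 ha had hdev.two_dvd hd0.ne' x hx2 hxX
  have e1 : main (D + δ) x q =
      sing (D + δ) / Pool.Agent.W93.PP.Cnt q (D + δ) * Pool.Agent.W93.PP.Li2 x := by
    unfold main sing Pool.Agent.W93.PP.Cnt Pool.Agent.W93.PP.Li2
    ring
  rw [e1]
  exact h2

open Classical in
/-- **Prime pairs in progressions for the differences near the multiples of the integers given by walks.** Let `δ` be a graph
(infinite or not) whose edges are labelled with the digits in base `b`, let `x` be a vertex and let `ρ > 0` be such that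
there are at most `ρ ^ (2 n)` closed walks of the length `2 n` at `x`, for all `n`. Let `κ ≠ 0`, `D`, `B`, `J`, `W`, `A₁`, `A₂`,
`C`, `J₂` and `U` be fixed and let `k` be large. Let `y` be a vertex such that the number of the walks of the length `k` from
`x` to `y` is at least `ρ ^ k / k ^ D`, let `c` be an integer with `|c| ≤ B b ^ k` and let `N` be an integer with
`k ^ (J + C + 7) b ^ k ≤ N ≤ k ^ J₂ b ^ k`. Then for all the integers `v` whose `k` digits in base `b` are the labels of a walk
from `x` to `y`, with the exception of a proportion of at most `1 / k ^ U` of them, the following holds for ALL the integers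
`q ≥ 0` at a distance of at most `k ^ W` from `c + κ v` and ALL `h` with `1 ≤ h ≤ k ^ J`: for all even `d > 0` with
`h q ≤ d ≤ h q + (log N) ^ A₁`, all real `x ≤ N`, all moduli `m ≤ (log N) ^ A₂` and all `a` with `(a, m) = (a + d, m) = 1`,
`|π_d(x; a, m) - M_d(x; m)| ≤ N / (log N) ^ C`.

(For a group of polynomial growth, a free group, or any group with the property of rapid decay, there are at least
`ρ ^ k / k ^ D` closed walks of every even length `k` in the Cayley graph, where `ρ` is its spectral radius.) -/
theorem result {X : Type} (b : ℕ) (δ : X → ℕ → Option X) (hG : Graph b δ) (x : X) (ρ : ℝ) (hρ : 0 < ρ)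
    (hR : ∀ n : ℕ, ((walks b δ (2 * n) x x).card : ℝ) ≤ ρ ^ (2 * n)) (κ : ℤ) (hκ : κ ≠ 0) (D B J W A₁ A₂ C J₂ U : ℕ) :
    ∃ k₀ : ℕ, ∀ k : ℕ, k₀ ≤ k → ∀ y : X, ρ ^ k / (k : ℝ) ^ D ≤ (walks b δ k x y).card →
      ∀ c : ℤ, |c| ≤ B * (b : ℤ) ^ k → ∀ N : ℕ, k ^ (J + C + 7) * b ^ k ≤ N → N ≤ k ^ J₂ * b ^ k →
      (((walks b δ k x y).filter fun v : ℕ => ¬ ∀ q : ℕ, |(q : ℤ) - (c + κ * v)| ≤ (k : ℤ) ^ W →
        ∀ h : ℕ, 1 ≤ h → h ≤ k ^ J → Holds A₁ A₂ C N (h * q)).card : ℝ) ≤
        (walks b δ k x y).card / (k : ℝ) ^ U := by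
  obtain ⟨k₀, hmain⟩ := Pool.Agent.U847.GD.t_goodD
    (Pool.Agent.U847.TI.w_tcls (b := b) (δ := δ) ⟨hG.symm, hG.two⟩ x ρ hρ hR D κ hκ) B J A₁ A₂ C J₂ W U
  refine ⟨k₀ + 1, fun k hk y hy c hc N hY1 hY2 => ?_⟩
  refine Pool.Agent.U847.WT.w_num hρ (by omega) hy _ (fun p hp => ?_)
  refine hmain k (by omega) p hp c hc N hY1 hY2 (fun v => ∀ q : ℕ, |(q : ℤ) - (c + κ * v)| ≤ (k : ℤ) ^ W →
        ∀ h : ℕ, 1 ≤ h → h ≤ k ^ J → Holds A₁ A₂ C N (h * q)) ?_
  intro v hv
  push Not at hv
  obtain ⟨q, hq2, h, hh1, hh2, hbad⟩ := hv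
  refine ⟨h, hh1, hh2, (q : ℤ) - (c + κ * v), hq2, ?_⟩
  have e : (h : ℤ) * (c + ((q : ℤ) - (c + κ * v)) + κ * v) = ((h * q : ℕ) : ℤ) := by
    push_cast
    ring
  rw [e]
  refine ⟨Int.natCast_nonneg _, ?_⟩
  rw [Int.toNat_natCast]
  exact fun hgood => hbad (holds_of _ _ _ _ _ hgood)

end Pool.Agent.Results.MP_92ef0c_nt.WalkDifferences
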